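import Pool.Agent.CG.F.Def

/-!
# CG-F-Basic: continuity, slope scaling, minimal structure, clamped weights
-/

set_option autoImplicit false

namespace Pool.Agent.CG

open MeasureTheory Set Filter Topology
open scoped ContDiff ENNReal

variable {m : ℕ}

/-- `s ≤ t`: `W s ≤ (t / s) ^ a * W t`. -/
theorem wt_back {a b : ℝ} {W : ℝ → ℝ} (hW : Wt a b W) {s t : ℝ} (hs : 0 < s) (hst : s ≤ t) :
    W s ≤ (t / s) ^ a * W t := by
  have h1 := hW.lo s t hs hst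
  have h2 : 0 < t / s := div_pos (hs.trans_le hst) hs
  have h3 : 0 < (t / s) ^ a := Real.rpow_pos_of_pos h2 a
  rw [Real.rpow_neg h2.le] at h1
  have h4 := mul_le_mul_of_nonneg_left h1 h3.le
  rwa [← mul_assoc, mul_inv_cancel₀ h3.ne', one_mul] at h4

theorem wt_comp {a b : ℝ} {W : ℝ → ℝ} (ha : 0 ≤ a) (hb : 0 ≤ b) (hW : Wt a b W) {c : ℝ}
    (hc : 0 < c) {φ : ℝ → ℝ} (hφ : ∀ t, 0 < t → 0 < φ t) (hm : ∀ s t, 0 < s → s ≤ t → φ s ≤ φ t)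
    (hs : ∀ s t, 0 < s → s ≤ t → φ t * s ≤ φ s * t) : Wt a b (fun t => c * W (φ t)) where
  pos t ht := mul_pos hc (hW.pos _ (hφ t ht))
  lo s t h0 hst := by
    have p1 := hφ s h0
    have p2 := hφ t (h0.trans_le hst)
    have h1 := hW.lo (φ s) (φ t) p1 (hm s t h0 hst)
    have h2 : φ t / φ s ≤ t / s := by
      rw [div_le_div_iff₀ p1 h0]
      linarith [hs s t h0 hst]
    have h3 : (t / s) ^ (-a) ≤ (φ t / φ s) ^ (-a) :=
      Real.rpow_le_rpow_of_nonpos (div_pos p2 p1) h2 (by linarith)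
    have h4 := hW.pos _ p1
    calc (t / s) ^ (-a) * (c * W (φ s)) = c * ((t / s) ^ (-a) * W (φ s)) := by ring
      _ ≤ c * ((φ t / φ s) ^ (-a) * W (φ s)) := by gcongr
      _ ≤ c * W (φ t) := by gcongr
  hi s t h0 hst := by
    have p1 := hφ s h0
    have p2 := hφ t (h0.trans_le hst)
    have h1 := hW.hi (φ s) (φ t) p1 (hm s t h0 hst)
    have h2 : φ t / φ s ≤ t / s := by
      rw [div_le_div_iff₀ p1 h0]
      linarith [hs s t h0 hst]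
    have h3 : (φ t / φ s) ^ b ≤ (t / s) ^ b := Real.rpow_le_rpow (div_pos p2 p1).le h2 hb
    have h4 := hW.pos _ p1
    calc c * W (φ t) ≤ c * ((φ t / φ s) ^ b * W (φ s)) := by gcongr
      _ ≤ c * ((t / s) ^ b * W (φ s)) := by gcongr
      _ = (t / s) ^ b * (c * W (φ s)) := by ring

/-- Slope scaling. -/
theorem Wt.scale {a b : ℝ} {W : ℝ → ℝ} (hW : Wt a b W) {M : ℝ} (hM : 0 < M) :
    Wt a b (fun t => W (M * t) / W M) := by
  have hWM := hW.pos M hM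
  refine ⟨fun t ht => div_pos (hW.pos _ (mul_pos hM ht)) hWM, fun s t hs hst => ?_,
    fun s t hs hst => ?_⟩
  · have h1 := hW.lo (M * s) (M * t) (mul_pos hM hs) (mul_le_mul_of_nonneg_left hst hM.le)
    rw [mul_div_mul_left _ _ hM.ne'] at h1
    rw [← mul_div_assoc]
    gcongr
  · have h1 := hW.hi (M * s) (M * t) (mul_pos hM hs) (mul_le_mul_of_nonneg_left hst hM.le)
    rw [mul_div_mul_left _ _ hM.ne'] at h1
    rw [← mul_div_assoc]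
    gcongr

theorem AA.scale {a b L : ℝ} {W : ℝ → ℝ} {A : Hv m → Hv m} (hW : Wt a b W) (hA : AA W L A) {M : ℝ}
    (hM : 0 < M) : AA (fun t => W (M * t) / W M) L (fun ξ => (M * W M)⁻¹ • A (M • ξ)) := by
  have hWM := hW.pos M hM
  have hmax : ∀ ξ ζ : Hv m, max ‖M • ξ‖ ‖M • ζ‖ = M * max ‖ξ‖ ‖ζ‖ := by
    intro ξ ζ
    rw [norm_smul, norm_smul, Real.norm_of_nonneg hM.le, mul_max_of_nonneg _ _ hM.le]
  refine ⟨fun ξ ζ => ?_, fun ξ ζ => ?_⟩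
  · have h1 := hA.mono (M • ξ) (M • ζ)
    rw [hmax, ← smul_sub, norm_smul, Real.norm_of_nonneg hM.le, inner_smul_right] at h1
    rw [← smul_sub, inner_smul_left]
    simp only [conj_trivial]
    have h2 : W (M * max ‖ξ‖ ‖ζ‖) / W M * ‖ξ - ζ‖ ^ 2 =
        (M * W M)⁻¹ * (M⁻¹ * (W (M * max ‖ξ‖ ‖ζ‖) * (M * ‖ξ - ζ‖) ^ 2)) := by
      field_simp
    rw [h2]
    have h3 : (inner ℝ (A (M • ξ) - A (M • ζ)) (ξ - ζ) : ℝ) =
        M⁻¹ * (M * inner ℝ (A (M • ξ) - A (M • ζ)) (ξ - ζ)) := by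
      rw [← mul_assoc, inv_mul_cancel₀ hM.ne', one_mul]
    rw [h3]
    gcongr
  · have h1 := hA.lip (M • ξ) (M • ζ)
    rw [hmax, ← smul_sub, norm_smul, Real.norm_of_nonneg hM.le] at h1
    rw [← smul_sub, norm_smul, Real.norm_of_nonneg (by positivity)]
    calc (M * W M)⁻¹ * ‖A (M • ξ) - A (M • ζ)‖
        ≤ (M * W M)⁻¹ * (L * W (M * max ‖ξ‖ ‖ζ‖) * (M * ‖ξ - ζ‖)) := by gcongr
      _ = L * (W (M * max ‖ξ‖ ‖ζ‖) / W M) * ‖ξ - ζ‖ := by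
        field_simp

/-- Minimal structure on the unit ball. -/
theorem nrm_min {a b L : ℝ} {A : Hv m → Hv m} (ha0 : 0 ≤ a) (ha : a < 1) (hb : 0 ≤ b) (hL : 0 ≤ L)
    (hA : Nrm a b L A) {ξ ζ : Hv m} (hξ : ‖ξ‖ ≤ 1) (hζ : ‖ζ‖ ≤ 1) :
    (2 : ℝ)⁻¹ ^ b * ‖ξ - ζ‖ ^ (2 + b) ≤ inner ℝ (A ξ - A ζ) (ξ - ζ) ∧
      ‖A ξ - A ζ‖ ≤ L * 2 ^ a * ‖ξ - ζ‖ ^ (1 - a) := by
  obtain ⟨W, hW, hW1, hAW⟩ := hA
  by_cases hne : ξ = ζ
  · subst hne
    simp only [sub_self, norm_zero, inner_zero_right]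
    rw [Real.zero_rpow (by linarith), Real.zero_rpow (by linarith)]
    simp
  have hd : 0 < ‖ξ - ζ‖ := norm_pos_iff.2 (sub_ne_zero.2 hne)
  set t := max ‖ξ‖ ‖ζ‖ with ht
  have h2t : ‖ξ - ζ‖ ≤ 2 * t := by
    calc ‖ξ - ζ‖ ≤ ‖ξ‖ + ‖ζ‖ := norm_sub_le _ _
      _ ≤ t + t := add_le_add (le_max_left _ _) (le_max_right _ _)
      _ = 2 * t := by ring
  have ht0 : 0 < t := by linarith
  have ht1 : t ≤ 1 := max_le hξ hζ
  have hd2 : 2⁻¹ * ‖ξ - ζ‖ ≤ t := by linarith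
  have hWt := hW.pos t ht0
  constructor
  · have h1 := hW.hi t 1 ht0 ht1
    rw [hW1, Real.div_rpow zero_le_one ht0.le, Real.one_rpow, one_div] at h1
    have h2 : t ^ b ≤ W t := by
      have h3 : 0 < t ^ b := Real.rpow_pos_of_pos ht0 b
      have h4 := mul_le_mul_of_nonneg_left h1 h3.le
      rwa [mul_one, ← mul_assoc, mul_inv_cancel₀ h3.ne', one_mul] at h4
    have h3 : (2 : ℝ)⁻¹ ^ b * ‖ξ - ζ‖ ^ b ≤ W t := by
      rw [← Real.mul_rpow (by norm_num) hd.le]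
      exact (Real.rpow_le_rpow (by positivity) hd2 hb).trans h2
    calc (2 : ℝ)⁻¹ ^ b * ‖ξ - ζ‖ ^ (2 + b) = ((2 : ℝ)⁻¹ ^ b * ‖ξ - ζ‖ ^ b) * ‖ξ - ζ‖ ^ 2 := by
          rw [Real.rpow_add hd, Real.rpow_two]
          ring
      _ ≤ W t * ‖ξ - ζ‖ ^ 2 := by gcongr
      _ ≤ _ := hAW.mono ξ ζ
  · have h1 := wt_back hW ht0 ht1
    rw [hW1, mul_one, one_div] at h1
    have h2 : (t⁻¹ : ℝ) ^ a ≤ 2 ^ a * ‖ξ - ζ‖ ^ (-a) := by
      rw [Real.rpow_neg hd.le, ← Real.inv_rpow hd.le, ← Real.mul_rpow (by norm_num) (by positivity)]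
      refine Real.rpow_le_rpow (by positivity) ?_ ha0
      rw [inv_le_iff_one_le_mul₀ ht0]
      have : (1 : ℝ) = 2 * ‖ξ - ζ‖⁻¹ * (2⁻¹ * ‖ξ - ζ‖) := by
        field_simp
      rw [this]
      gcongr
    calc ‖A ξ - A ζ‖ ≤ L * W t * ‖ξ - ζ‖ := hAW.lip ξ ζ
      _ ≤ L * (2 ^ a * ‖ξ - ζ‖ ^ (-a)) * ‖ξ - ζ‖ := by
        gcongr
        exact h1.trans h2
      _ = L * 2 ^ a * ‖ξ - ζ‖ ^ (1 - a) := by
        rw [show (1 : ℝ) - a = -a + 1 by ring, Real.rpow_add hd, Real.rpow_one]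
        ring

theorem AA.continuous {a b L : ℝ} {W : ℝ → ℝ} {A : Hv m → Hv m} (ha : a < 1) (hb : 0 ≤ b)
    (hL : 0 ≤ L) (hW : Wt a b W) (hA : AA W L A) : Continuous A := by
  rw [continuous_iff_continuousAt]
  intro ξ₀
  rw [ContinuousAt, tendsto_iff_norm_sub_tendsto_zero]
  by_cases h0 : ξ₀ = 0
  · subst h0
    have hlim : Tendsto (fun ξ : Hv m => L * W 1 * ‖ξ‖ ^ (1 - a)) (𝓝 0) (𝓝 0) := by
      have h1 : Tendsto (fun ξ : Hv m => ‖ξ‖ ^ (1 - a)) (𝓝 0) (𝓝 0) := by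
        have h2 : Tendsto (fun ξ : Hv m => ‖ξ‖) (𝓝 0) (𝓝 0) := tendsto_norm_zero
        have h3 := h2.rpow_const (p := 1 - a) (Or.inr (by linarith))
        rwa [Real.zero_rpow (by linarith)] at h3
      have h4 := h1.const_mul (L * W 1)
      rwa [mul_zero] at h4
    refine squeeze_zero' (Eventually.of_forall fun _ => norm_nonneg _) ?_ hlim
    filter_upwards [Metric.closedBall_mem_nhds (0 : Hv m) one_pos] with ξ hξ
    rw [mem_closedBall_zero_iff] at hξ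
    have h1 := hA.lip ξ 0
    rw [norm_zero, max_eq_left (norm_nonneg ξ), sub_zero] at h1
    by_cases h2 : ξ = 0
    · subst h2
      rw [sub_self, norm_zero]
      have := hW.pos 1 one_pos
      positivity
    have hξ0 : 0 < ‖ξ‖ := norm_pos_iff.2 h2
    have h3 := wt_back hW hξ0 hξ
    calc ‖A ξ - A 0‖ ≤ L * W ‖ξ‖ * ‖ξ‖ := h1
      _ ≤ L * ((1 / ‖ξ‖) ^ a * W 1) * ‖ξ‖ := by gcongr
      _ = L * W 1 * ‖ξ‖ ^ (1 - a) := by
        rw [one_div, Real.inv_rpow hξ0.le, ← Real.rpow_neg hξ0.le,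
          show (1 : ℝ) - a = -a + 1 by ring, Real.rpow_add hξ0, Real.rpow_one]
        ring
  · have hr : 0 < ‖ξ₀‖ := norm_pos_iff.2 h0
    have hWr := hW.pos _ hr
    have hlim : Tendsto (fun ξ : Hv m => L * (2 ^ b * W ‖ξ₀‖) * ‖ξ - ξ₀‖) (𝓝 ξ₀) (𝓝 0) := by
      have h1 : Tendsto (fun ξ : Hv m => ‖ξ - ξ₀‖) (𝓝 ξ₀) (𝓝 0) :=
        tendsto_iff_norm_sub_tendsto_zero.1 tendsto_id
      have h4 := h1.const_mul (L * (2 ^ b * W ‖ξ₀‖))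
      rwa [mul_zero] at h4
    refine squeeze_zero' (Eventually.of_forall fun _ => norm_nonneg _) ?_ hlim
    filter_upwards [Metric.closedBall_mem_nhds ξ₀ hr] with ξ hξ
    rw [mem_closedBall_iff_norm] at hξ
    have h1 := hA.lip ξ ξ₀
    have h2 : ‖ξ‖ ≤ 2 * ‖ξ₀‖ := by
      have : ‖ξ‖ ≤ ‖ξ - ξ₀‖ + ‖ξ₀‖ := by
        calc ‖ξ‖ = ‖(ξ - ξ₀) + ξ₀‖ := by rw [sub_add_cancel]
          _ ≤ _ := norm_add_le _ _
      linarith
    have h3 : max ‖ξ‖ ‖ξ₀‖ ≤ 2 * ‖ξ₀‖ := max_le h2 (by linarith)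
    have h4 := hW.hi ‖ξ₀‖ (max ‖ξ‖ ‖ξ₀‖) hr (le_max_right _ _)
    have h5 : (max ‖ξ‖ ‖ξ₀‖ / ‖ξ₀‖) ^ b ≤ 2 ^ b := by
      refine Real.rpow_le_rpow (by positivity) ?_ hb
      rw [div_le_iff₀ hr]
      exact h3
    calc ‖A ξ - A ξ₀‖ ≤ L * W (max ‖ξ‖ ‖ξ₀‖) * ‖ξ - ξ₀‖ := h1
      _ ≤ L * ((max ‖ξ‖ ‖ξ₀‖ / ‖ξ₀‖) ^ b * W ‖ξ₀‖) * ‖ξ - ξ₀‖ := by gcongr
      _ ≤ L * (2 ^ b * W ‖ξ₀‖) * ‖ξ - ξ₀‖ := by gcongr

theorem wt_min {a b : ℝ} {W : ℝ → ℝ} (ha : 0 ≤ a) (hb : 0 ≤ b) (hW : Wt a b W) {c k : ℝ} (hc : 0 < c)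
    (hk : 0 < k) : Wt a b (fun t => c * W (min t k)) := by
  refine wt_comp ha hb hW hc (fun t ht => lt_min ht hk) (fun s t _ hst => min_le_min_right k hst) ?_
  intro s t hs hst
  rcases le_total s k with h | h
  · rw [min_eq_left h]
    calc min t k * s ≤ t * s := by gcongr; exact min_le_left _ _
      _ = s * t := mul_comm _ _
  · rw [min_eq_right h, min_eq_right (h.trans hst)]
    gcongr

theorem wt_clamp {a b : ℝ} {W : ℝ → ℝ} (ha : 0 ≤ a) (hb : 0 ≤ b) (hW : Wt a b W) {c k : ℝ} (hc : 0 < c)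
    (hk : 0 < k) : Wt a b (fun t => c * W (max k⁻¹ (min t k))) := by
  have hk' : 0 < k⁻¹ := inv_pos.2 hk
  refine wt_comp ha hb hW hc (fun t _ => lt_max_of_lt_left hk')
    (fun s t _ hst => max_le_max_left _ (min_le_min_right k hst)) ?_
  intro s t hs hst
  have ht := hs.trans_le hst
  rw [max_mul_of_nonneg _ _ hs.le, max_mul_of_nonneg _ _ ht.le]
  refine max_le_max ?_ ?_
  · gcongr
  · rcases le_total s k with h | h
    · rw [min_eq_left h]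
      calc min t k * s ≤ t * s := by gcongr; exact min_le_left _ _
        _ = s * t := mul_comm _ _
    · rw [min_eq_right h, min_eq_right (h.trans hst)]
      gcongr

end Pool.Agent.CG
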