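import Pool.Agent.CG.F.Basic

/-!
# CG-F-Gg: the energy density
-/

set_option autoImplicit false

namespace Pool.Agent.CG

open MeasureTheory Set Filter Topology
open scoped ContDiff ENNReal

variable {m : ℕ}

/-- Young's inequality for the energy density. -/
theorem gg_young {a b : ℝ} (ha0 : 0 ≤ a) (ha : a < 1) (hb : 0 ≤ b) {θ : ℝ} (hθ : 0 < θ) :
    ∃ C : ℝ, 0 < C ∧ ∀ W : ℝ → ℝ, Wt a b W → ∀ s t : ℝ, 0 ≤ s → 0 ≤ t →
      W t * t * s ≤ θ * gg W t + C * gg W s := by
  refine ⟨1 + θ⁻¹ ^ (1 + b), by positivity, fun W hW s t hs ht => ?_⟩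
  rcases hs.eq_or_lt with rfl | hs
  · rcases ht.eq_or_lt with rfl | ht
    · simp [gg]
    · have := hW.pos t ht
      have h0 : gg W 0 = 0 := by simp [gg]
      rw [h0, mul_zero, mul_zero, add_zero]
      unfold gg
      positivity
  rcases ht.eq_or_lt with rfl | ht
  · have := hW.pos s hs
    have h0 : gg W 0 = 0 := by simp [gg]
    rw [h0, mul_zero, mul_zero, zero_mul, zero_add]
    unfold gg
    positivity
  have hWs := hW.pos s hs
  have hWt := hW.pos t ht
  unfold gg
  by_cases h1 : s ≤ θ * t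
  · have h2 : W t * t * s ≤ θ * (t ^ 2 * W t) := by
      calc W t * t * s ≤ W t * t * (θ * t) := by gcongr
        _ = θ * (t ^ 2 * W t) := by ring
    have h3 : 0 ≤ (1 + θ⁻¹ ^ (1 + b)) * (s ^ 2 * W s) := by positivity
    linarith
  · have h1' : t ≤ θ⁻¹ * s := by
      rw [le_inv_mul_iff₀ hθ]
      exact (not_le.1 h1).le
    have h3 : 0 ≤ θ * (t ^ 2 * W t) := by positivity
    have h4 : W t * t ≤ (1 + θ⁻¹ ^ (1 + b)) * (s * W s) := by
      rcases le_total t s with h | h
      · have h5 := wt_back hW ht h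
        have h6 : W t * t ≤ s * W s := by
          calc W t * t ≤ (s / t) ^ a * W s * t := by gcongr
            _ = ((s / t) ^ a * t) * W s := by ring
            _ ≤ s * W s := by
              gcongr
              have h7 : (s / t) ^ a ≤ (s / t) ^ (1 : ℝ) :=
                Real.rpow_le_rpow_of_exponent_le (by rw [le_div_iff₀ ht]; linarith) ha.le
              rw [Real.rpow_one] at h7
              calc (s / t) ^ a * t ≤ s / t * t := by gcongr
                _ = s := div_mul_cancel₀ _ ht.ne'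
        calc W t * t ≤ s * W s := h6
          _ ≤ (1 + θ⁻¹ ^ (1 + b)) * (s * W s) := by
            have : 0 ≤ θ⁻¹ ^ (1 + b) * (s * W s) := by positivity
            linarith
      · have h5 := hW.hi s t hs h
        have h8 : t / s ≤ θ⁻¹ := by
          rw [div_le_iff₀ hs]
          exact h1'
        have h6 : W t * t ≤ θ⁻¹ ^ (1 + b) * (s * W s) := by
          calc W t * t ≤ (t / s) ^ b * W s * t := by gcongr
            _ ≤ θ⁻¹ ^ b * W s * (θ⁻¹ * s) := by
              gcongr
            _ = θ⁻¹ ^ (1 + b) * (s * W s) := by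
              rw [Real.rpow_add (inv_pos.2 hθ), Real.rpow_one]
              ring
        have : 0 ≤ 1 * (s * W s) := by positivity
        linarith
    have h5 : W t * t * s ≤ (1 + θ⁻¹ ^ (1 + b)) * (s ^ 2 * W s) := by
      calc W t * t * s ≤ (1 + θ⁻¹ ^ (1 + b)) * (s * W s) * s := by gcongr
        _ = (1 + θ⁻¹ ^ (1 + b)) * (s ^ 2 * W s) := by ring
    linarith

theorem gg_mono {a b : ℝ} (ha : a < 1) {W : ℝ → ℝ} (hW : Wt a b W) {s t : ℝ} (hs : 0 < s) (hst : s ≤ t) :
    (t / s) ^ (2 - a) * gg W s ≤ gg W t := by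
  have h1 := hW.lo s t hs hst
  have ht := hs.trans_le hst
  unfold gg
  have h2 : (t / s) ^ (2 - a) * (s ^ 2 * W s) = t ^ 2 * ((t / s) ^ (-a) * W s) := by
    rw [show (2 : ℝ) - a = 2 + -a by ring, Real.rpow_add (div_pos ht hs), Real.rpow_two]
    field_simp
  rw [h2]
  gcongr

theorem gg_le {a b : ℝ} {W : ℝ → ℝ} (hW : Wt a b W) {s t : ℝ} (hs : 0 < s) (hst : s ≤ t) :
    gg W t ≤ (t / s) ^ (2 + b) * gg W s := by
  have h1 := hW.hi s t hs hst
  have ht := hs.trans_le hst
  unfold gg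
  have h2 : (t / s) ^ (2 + b) * (s ^ 2 * W s) = t ^ 2 * ((t / s) ^ b * W s) := by
    rw [Real.rpow_add (div_pos ht hs), Real.rpow_two]
    field_simp
  rw [h2]
  gcongr

/-- Convexity up to a constant: `gg (s + t) ≤ C (gg s + gg t)`. -/
theorem gg_add {a b : ℝ} (ha0 : 0 ≤ a) (ha : a < 1) (hb : 0 ≤ b) : ∃ C : ℝ, 0 < C ∧
    ∀ W : ℝ → ℝ, Wt a b W → ∀ s t : ℝ, 0 ≤ s → 0 ≤ t → gg W (s + t) ≤ C * (gg W s + gg W t) := by
  refine ⟨2 ^ (2 + b), by positivity, fun W hW => ?_⟩
  have hnn : ∀ s, 0 ≤ s → 0 ≤ gg W s := by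
    intro s hs
    rcases hs.eq_or_lt with rfl | hs
    · simp [gg]
    · have := hW.pos s hs
      unfold gg
      positivity
  have key : ∀ s t : ℝ, 0 ≤ s → s ≤ t → gg W (s + t) ≤ 2 ^ (2 + b) * (gg W s + gg W t) := by
    intro s t hs hst
    rcases (hs.trans hst).eq_or_lt with h | ht
    · have hs0 : s = 0 := le_antisymm (h ▸ hst) hs
      rw [hs0, ← h]
      simp [gg]
    have h1 := gg_le hW ht (show t ≤ s + t by linarith)
    have h2 : ((s + t) / t) ^ (2 + b) ≤ 2 ^ (2 + b) := by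
      refine Real.rpow_le_rpow (by positivity) ?_ (by linarith)
      rw [div_le_iff₀ ht]
      linarith
    have h3 := hnn t ht.le
    have h4 := hnn s hs
    calc gg W (s + t) ≤ ((s + t) / t) ^ (2 + b) * gg W t := h1
      _ ≤ 2 ^ (2 + b) * gg W t := by gcongr
      _ ≤ 2 ^ (2 + b) * (gg W s + gg W t) := by
        gcongr
        linarith
  intro s t hs ht
  rcases le_total s t with h | h
  · exact key s t hs h
  · rw [add_comm s t, add_comm (gg W s)]
    exact key t s ht h

end Pool.Agent.CG
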