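import Pool.Agent.CG.F.Basic

/-!
# CG-F-Avg: averaging a structure function along a segment
-/

set_option autoImplicit false

namespace Pool.Agent.CG

open MeasureTheory Set Filter Topology
open scoped ContDiff ENNReal

variable {m : ℕ}

theorem wt_cmp {a b : ℝ} (ha : 0 ≤ a) (hb : 0 ≤ b) {W : ℝ → ℝ} (hW : Wt a b W) {x y C : ℝ}
    (hx : 0 < x) (hy : 0 < y) (hC : 1 ≤ C) (hxy : x ≤ C * y) (hyx : y ≤ C * x) :
    W x ≤ C ^ (a + b) * W y := by
  have hWy := hW.pos y hy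
  have hC0 : 0 < C := by linarith
  rcases le_total x y with h | h
  · calc W x ≤ (y / x) ^ a * W y := wt_back hW hx h
      _ ≤ C ^ a * W y := by
        gcongr
        rw [div_le_iff₀ hx]
        exact hyx
      _ ≤ C ^ (a + b) * W y := by
        gcongr
        linarith
  · calc W x ≤ (x / y) ^ b * W y := hW.hi y x hy h
      _ ≤ C ^ b * W y := by
        gcongr
        rw [div_le_iff₀ hy]
        exact hxy
      _ ≤ C ^ (a + b) * W y := by
        gcongr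
        linarith

/-- The average of `A` over the segment `[ξ - ε e, ξ + ε e]`. -/
noncomputable def avg (A : Hv m → Hv m) (ε : ℝ) (e : Hv m) (ξ : Hv m) : Hv m :=
  (2 : ℝ)⁻¹ • ∫ s in (-1 : ℝ)..1, A (ξ + (ε * s) • e)

theorem avg_cont {A : Hv m → Hv m} (hA : Continuous A) (ε : ℝ) (e ξ : Hv m) :
    Continuous (fun s : ℝ => A (ξ + (ε * s) • e)) := by
  fun_prop

theorem avg_sub {A : Hv m → Hv m} (hA : Continuous A) (ε : ℝ) (e ξ ζ : Hv m) :
    avg A ε e ξ - avg A ε e ζ =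
      (2 : ℝ)⁻¹ • ∫ s in (-1 : ℝ)..1, (A (ξ + (ε * s) • e) - A (ζ + (ε * s) • e)) := by
  unfold avg
  rw [intervalIntegral.integral_sub ((avg_cont hA ε e ξ).intervalIntegrable _ _)
    ((avg_cont hA ε e ζ).intervalIntegrable _ _), smul_sub]

theorem int_low {F : ℝ → ℝ} (hF : Continuous F) (h0 : ∀ s, 0 ≤ F s) {κ : ℝ}
    (h1 : (∀ s, 1 / 2 ≤ s → s ≤ 1 → κ ≤ F s) ∨ (∀ s, -1 ≤ s → s ≤ -(1 / 2) → κ ≤ F s)) :
    2⁻¹ * κ ≤ ∫ s in (-1 : ℝ)..1, F s := by
  rcases h1 with h1 | h1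
  · calc 2⁻¹ * κ = ∫ _s in (1 / 2 : ℝ)..1, κ := by
          rw [intervalIntegral.integral_const, smul_eq_mul]
          norm_num
      _ ≤ ∫ s in (1 / 2 : ℝ)..1, F s := by
          refine intervalIntegral.integral_mono_on (by norm_num) (by simp)
            (hF.intervalIntegrable _ _) fun s hs => h1 s hs.1 hs.2
      _ ≤ _ := by
          refine intervalIntegral.integral_mono_interval (by norm_num) (by norm_num) le_rfl ?_
            (hF.intervalIntegrable _ _)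
          exact Eventually.of_forall h0
  · calc 2⁻¹ * κ = ∫ _s in (-1 : ℝ)..(-(1 / 2)), κ := by
          rw [intervalIntegral.integral_const, smul_eq_mul]
          norm_num
      _ ≤ ∫ s in (-1 : ℝ)..(-(1 / 2)), F s := by
          refine intervalIntegral.integral_mono_on (by norm_num) (by simp)
            (hF.intervalIntegrable _ _) fun s hs => h1 s hs.1 hs.2
      _ ≤ _ := by
          refine intervalIntegral.integral_mono_interval le_rfl (by norm_num) (by norm_num) ?_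
            (hF.intervalIntegrable _ _)
          exact Eventually.of_forall h0

/-- Points moved along the side of `e` do not get shorter. -/
theorem seg_low {η e : Hv m} (he : ‖e‖ = 1) {r : ℝ} (h : 0 ≤ r * inner ℝ η e) :
    max ‖η‖ |r| ≤ ‖η + r • e‖ := by
  have h1 : ‖η + r • e‖ ^ 2 = ‖η‖ ^ 2 + 2 * (r * inner ℝ η e) + |r| ^ 2 := by
    rw [norm_add_sq_real, norm_smul, he, inner_smul_right, Real.norm_eq_abs, mul_one]
  refine max_le ?_ ?_
  · refine le_of_sq_le_sq ?_ (norm_nonneg _)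
    rw [h1]
    nlinarith [sq_nonneg |r|]
  · refine le_of_sq_le_sq ?_ (norm_nonneg _)
    rw [h1]
    nlinarith [sq_nonneg ‖η‖]

theorem pow_neg_int {a : ℝ} (ha0 : 0 ≤ a) (ha : a < 1) (x y : ℝ) :
    IntervalIntegrable (fun u : ℝ => |u| ^ (-a)) volume x y := by
  refine intervalIntegrable_of_even (fun x => by rw [abs_neg]) ?_
  intro x hx
  have h1 : IntervalIntegrable (fun u : ℝ => u ^ (-a)) volume 0 x :=
    intervalIntegral.intervalIntegrable_rpow' (by linarith)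
  refine h1.congr ?_
  intro u hu
  rw [uIoc_of_le hx.le] at hu
  simp only
  rw [abs_of_pos hu.1]

theorem pow_neg_shift {a : ℝ} (ha0 : 0 ≤ a) (ha : a < 1) {x : ℝ} (hx : |x| ≤ 2) :
    IntervalIntegrable (fun s : ℝ => |x + s| ^ (-a)) volume (-1) 1 ∧
      ∫ s in (-1 : ℝ)..1, |x + s| ^ (-a) ≤ ∫ u in (-3 : ℝ)..3, |u| ^ (-a) := by
  have hx' := abs_le.1 hx
  constructor
  · have h1 := (pow_neg_int ha0 ha (-1 + x) (1 + x)).comp_add_left x
    simpa using h1
  · rw [intervalIntegral.integral_comp_add_left (fun u : ℝ => |u| ^ (-a)) x]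
    refine intervalIntegral.integral_mono_interval (by linarith) (by linarith) (by linarith) ?_
      (pow_neg_int ha0 ha _ _)
    exact Eventually.of_forall fun u => Real.rpow_nonneg (abs_nonneg u) _

/-- Averaging over segments of half-length `ε`. -/
theorem avg_AA {a b L : ℝ} (ha0 : 0 ≤ a) (ha : a < 1) (hb : 0 ≤ b) (hL : 1 ≤ L) :
    ∃ c : ℝ, 0 < c ∧ ∃ L' : ℝ, 1 ≤ L' ∧ ∀ (W : ℝ → ℝ) (A : Hv m → Hv m), Wt a b W → AA W L A →
      ∀ (e : Hv m) (ε : ℝ), ‖e‖ = 1 → 0 < ε →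
        AA (fun t => c * W (max ε t)) L' (avg A ε e) := by
  set I : ℝ := ∫ u in (-3 : ℝ)..3, |u| ^ (-a) with hI
  have hI0 : 0 ≤ I :=
    intervalIntegral.integral_nonneg (by norm_num) fun u _ => Real.rpow_nonneg (abs_nonneg u) _
  have hc0 : (0 : ℝ) < 4⁻¹ * (2 ^ (a + b))⁻¹ := by positivity
  have hc1 : (4 : ℝ)⁻¹ * (2 ^ (a + b))⁻¹ ≤ 1 := by
    have h1 : (1 : ℝ) ≤ 2 ^ (a + b) := Real.one_le_rpow (by norm_num) (by linarith)
    have h2 : ((2 : ℝ) ^ (a + b))⁻¹ ≤ 1 := inv_le_one_of_one_le₀ h1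
    have h3 : (0 : ℝ) < (2 ^ (a + b))⁻¹ := by positivity
    linarith
  set c : ℝ := 4⁻¹ * (2 ^ (a + b))⁻¹ with hc
  have hL0 : (0 : ℝ) < L := by linarith
  refine ⟨c, hc0, L * 4 ^ a * 2 ^ b * (1 + I) / c, ?_, ?_⟩
  · rw [le_div_iff₀ hc0, one_mul]
    refine hc1.trans ?_
    have h1 : (1 : ℝ) ≤ 4 ^ a := Real.one_le_rpow (by norm_num) ha0
    have h2 : (1 : ℝ) ≤ 2 ^ b := Real.one_le_rpow (by norm_num) hb
    exact one_le_mul_of_one_le_of_one_le (one_le_mul_of_one_le_of_one_le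
      (one_le_mul_of_one_le_of_one_le hL h1) h2) (by linarith)
  intro W A hW hA e ε he hε
  have hcont := AA.continuous ha hb hL0.le hW hA
  -- one of the vectors has the larger norm
  have key : ∀ ξ ζ : Hv m, ξ ≠ ζ → ∃ η : Hv m, (η = ξ ∨ η = ζ) ∧ max ‖ξ‖ ‖ζ‖ = ‖η‖ := by
    intro ξ ζ _
    rcases le_total ‖ξ‖ ‖ζ‖ with h | h
    · exact ⟨ζ, Or.inr rfl, max_eq_right h⟩
    · exact ⟨ξ, Or.inl rfl, max_eq_left h⟩
  have hτ0 : ∀ (ξ ζ : Hv m) (s : ℝ), ξ ≠ ζ → 0 < max ‖ξ + (ε * s) • e‖ ‖ζ + (ε * s) • e‖ := by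
    intro ξ ζ s hne
    by_contra h
    have h1 := max_le_iff.1 (not_lt.1 h)
    have h2 := norm_le_zero_iff.1 h1.1
    have h3 := norm_le_zero_iff.1 h1.2
    exact hne (add_right_cancel (h2.trans h3.symm))
  have hseg : ∀ (ξ : Hv m) (s : ℝ), |s| ≤ 1 → ‖ξ + (ε * s) • e‖ ≤ ‖ξ‖ + ε := by
    intro ξ s hs
    calc ‖ξ + (ε * s) • e‖ ≤ ‖ξ‖ + ‖(ε * s) • e‖ := norm_add_le _ _
      _ = ‖ξ‖ + ε * |s| := by rw [norm_smul, he, mul_one, Real.norm_eq_abs, abs_mul, abs_of_pos hε]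
      _ ≤ ‖ξ‖ + ε := by nlinarith [abs_nonneg s]
  have hτ2 : ∀ (ξ ζ : Hv m) (s : ℝ), |s| ≤ 1 →
      max ‖ξ + (ε * s) • e‖ ‖ζ + (ε * s) • e‖ ≤ 2 * max ε (max ‖ξ‖ ‖ζ‖) := by
    intro ξ ζ s hs
    refine max_le ?_ ?_
    · have h1 := hseg ξ s hs
      have h2 : ‖ξ‖ ≤ max ε (max ‖ξ‖ ‖ζ‖) := (le_max_left _ _).trans (le_max_right _ _)
      have h3 : ε ≤ max ε (max ‖ξ‖ ‖ζ‖) := le_max_left _ _
      linarith
    · have h1 := hseg ζ s hs
      have h2 : ‖ζ‖ ≤ max ε (max ‖ξ‖ ‖ζ‖) := (le_max_right _ _).trans (le_max_right _ _)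
      have h3 : ε ≤ max ε (max ‖ξ‖ ‖ζ‖) := le_max_left _ _
      linarith
  have hτη : ∀ (ξ ζ η : Hv m) (s : ℝ), (η = ξ ∨ η = ζ) →
      ‖η + (ε * s) • e‖ ≤ max ‖ξ + (ε * s) • e‖ ‖ζ + (ε * s) • e‖ := by
    intro ξ ζ η s h
    rcases h with rfl | rfl
    · exact le_max_left _ _
    · exact le_max_right _ _
  constructor
  · intro ξ ζ
    by_cases hne : ξ = ζ
    · subst hne
      simp
    obtain ⟨η, hη, hηm⟩ := key ξ ζ hne
    set T := max ε (max ‖ξ‖ ‖ζ‖) with hT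
    have hT0 : 0 < T := lt_max_of_lt_left hε
    rw [avg_sub hcont, real_inner_smul_left]
    have hFc : Continuous (fun s : ℝ => A (ξ + (ε * s) • e) - A (ζ + (ε * s) • e)) :=
      (avg_cont hcont ε e ξ).sub (avg_cont hcont ε e ζ)
    have h1 : (inner ℝ (∫ s in (-1 : ℝ)..1, (A (ξ + (ε * s) • e) - A (ζ + (ε * s) • e))) (ξ - ζ) : ℝ) =
        ∫ s in (-1 : ℝ)..1, inner ℝ (A (ξ + (ε * s) • e) - A (ζ + (ε * s) • e)) (ξ - ζ) := by
      have h2 := ContinuousLinearMap.intervalIntegral_comp_comm (innerSL ℝ (ξ - ζ))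
        (hFc.intervalIntegrable (μ := volume) (-1) 1)
      rw [real_inner_comm]
      rw [show (inner ℝ (ξ - ζ) (∫ s in (-1 : ℝ)..1, (A (ξ + (ε * s) • e) - A (ζ + (ε * s) • e))) : ℝ)
        = innerSL ℝ (ξ - ζ) (∫ s in (-1 : ℝ)..1, (A (ξ + (ε * s) • e) - A (ζ + (ε * s) • e))) from rfl,
        ← h2]
      refine intervalIntegral.integral_congr fun s _ => ?_
      rw [innerSL_apply_apply]
      exact real_inner_comm _ _
    rw [h1]
    have hlow : ∀ s : ℝ, W (max ‖ξ + (ε * s) • e‖ ‖ζ + (ε * s) • e‖) * ‖ξ - ζ‖ ^ 2 ≤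
        inner ℝ (A (ξ + (ε * s) • e) - A (ζ + (ε * s) • e)) (ξ - ζ) := by
      intro s
      have h3 := hA.mono (ξ + (ε * s) • e) (ζ + (ε * s) • e)
      rwa [add_sub_add_right_eq_sub] at h3
    have hgood : ∀ s : ℝ, |s| ≤ 1 → 1 / 2 ≤ |s| → 0 ≤ (ε * s) * inner ℝ η e →
        (2 ^ (a + b))⁻¹ * W T * ‖ξ - ζ‖ ^ 2 ≤
        inner ℝ (A (ξ + (ε * s) • e) - A (ζ + (ε * s) • e)) (ξ - ζ) := by
      intro s hs1 hs2 hs3
      refine le_trans ?_ (hlow s)
      gcongr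
      have h4 := seg_low he hs3
      have h5 := hτη ξ ζ η s hη
      have h6 : T ≤ 2 * max ‖ξ + (ε * s) • e‖ ‖ζ + (ε * s) • e‖ := by
        refine max_le ?_ ?_
        · have h7 : |ε * s| ≤ max ‖ξ + (ε * s) • e‖ ‖ζ + (ε * s) • e‖ :=
            (le_max_right _ _).trans (h4.trans h5)
          rw [abs_mul, abs_of_pos hε] at h7
          nlinarith
        · have h7 : ‖η‖ ≤ max ‖ξ + (ε * s) • e‖ ‖ζ + (ε * s) • e‖ :=
            (le_max_left _ _).trans (h4.trans h5)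
          rw [hηm]
          linarith [norm_nonneg η]
      have h8 := wt_cmp ha0 hb hW hT0 (hτ0 ξ ζ s hne) one_le_two h6 (hτ2 ξ ζ s hs1)
      rw [inv_mul_le_iff₀ (by positivity)]
      exact h8
    have h9 := int_low (F := fun s => inner ℝ (A (ξ + (ε * s) • e) - A (ζ + (ε * s) • e)) (ξ - ζ))
      (hFc.inner continuous_const) (fun s => (mul_nonneg (hW.pos _ (hτ0 ξ ζ s hne)).le
        (sq_nonneg _)).trans (hlow s)) (κ := (2 ^ (a + b))⁻¹ * W T * ‖ξ - ζ‖ ^ 2) (by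
        rcases le_total 0 (inner ℝ η e : ℝ) with h | h
        · left
          intro s hs1 hs2
          have hs0 : 0 ≤ s := by linarith
          exact hgood s (by rwa [abs_of_nonneg hs0]) (by rwa [abs_of_nonneg hs0])
            (mul_nonneg (mul_nonneg hε.le hs0) h)
        · right
          intro s hs1 hs2
          have hs0 : s ≤ 0 := by linarith
          exact hgood s (by rw [abs_of_nonpos hs0]; linarith) (by rw [abs_of_nonpos hs0]; linarith)
            (mul_nonneg_of_nonpos_of_nonpos (mul_nonpos_of_nonneg_of_nonpos hε.le hs0) h))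
    calc c * W T * ‖ξ - ζ‖ ^ 2 = 2⁻¹ * (2⁻¹ * ((2 ^ (a + b))⁻¹ * W T * ‖ξ - ζ‖ ^ 2)) := by
          rw [hc]
          ring
      _ ≤ _ := by gcongr
  · intro ξ ζ
    by_cases hne : ξ = ζ
    · subst hne
      simp
    obtain ⟨η, hη, hηm⟩ := key ξ ζ hne
    set T := max ε (max ‖ξ‖ ‖ζ‖) with hT
    have hT0 : 0 < T := lt_max_of_lt_left hε
    have hWT := hW.pos T hT0
    have hgoal : L * 4 ^ a * 2 ^ b * (1 + I) / c * (c * W T) * ‖ξ - ζ‖ =
        L * 4 ^ a * 2 ^ b * (1 + I) * W T * ‖ξ - ζ‖ := by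
      field_simp
    show _ ≤ L * 4 ^ a * 2 ^ b * (1 + I) / c * (c * W T) * ‖ξ - ζ‖
    rw [hgoal, avg_sub hcont, norm_smul, Real.norm_of_nonneg (by norm_num : (0 : ℝ) ≤ 2⁻¹)]
    -- bound of the weight by the distance to the origin
    have hup : ∀ (s q : ℝ), |s| ≤ 1 → 0 < q → 2 * T ≤ 4 * (max ‖ξ + (ε * s) • e‖ ‖ζ + (ε * s) • e‖ / q) →
        ‖A (ξ + (ε * s) • e) - A (ζ + (ε * s) • e)‖ ≤
          L * (4 ^ a * q ^ (-a) * 2 ^ b * W T) * ‖ξ - ζ‖ := by
      intro s q hs hq h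
      have h3 := hA.lip (ξ + (ε * s) • e) (ζ + (ε * s) • e)
      rw [add_sub_add_right_eq_sub] at h3
      refine h3.trans ?_
      have hτp := hτ0 ξ ζ s hne
      gcongr
      set τ := max ‖ξ + (ε * s) • e‖ ‖ζ + (ε * s) • e‖ with hτ
      have h4 := wt_back hW hτp (hτ2 ξ ζ s hs)
      have h5 := hW.hi T (2 * T) hT0 (by linarith)
      rw [mul_div_assoc, div_self hT0.ne', mul_one] at h5
      have h6 : (2 * T / τ) ^ a ≤ 4 ^ a * q ^ (-a) := by
        rw [Real.rpow_neg hq.le, ← Real.inv_rpow hq.le, ← Real.mul_rpow (by norm_num) (by positivity)]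
        refine Real.rpow_le_rpow (by positivity) ?_ ha0
        rw [div_le_iff₀ hτp]
        calc 2 * T ≤ 4 * (τ / q) := h
          _ = 4 * q⁻¹ * τ := by
            rw [div_eq_mul_inv]
            ring
      calc W τ ≤ (2 * T / τ) ^ a * W (2 * T) := h4
        _ ≤ (4 ^ a * q ^ (-a)) * (2 ^ b * W T) := by
          gcongr
          exact (hW.pos _ (by linarith)).le
        _ = _ := by ring
    have hI1 : 0 ≤ L * 4 ^ a * 2 ^ b * W T * ‖ξ - ζ‖ := by positivity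
    rcases le_or_gt (2 * ε) ‖η‖ with hcase | hcase
    · -- far from the origin
      have hTη : T = ‖η‖ := by
        rw [hT, hηm]
        exact max_eq_right (by linarith)
      have h3 : ‖∫ s in (-1 : ℝ)..1, (A (ξ + (ε * s) • e) - A (ζ + (ε * s) • e))‖ ≤
          L * (4 ^ a * 1 ^ (-a) * 2 ^ b * W T) * ‖ξ - ζ‖ * |1 - (-1)| := by
        refine intervalIntegral.norm_integral_le_of_norm_le_const fun s hs => ?_
        rw [uIoc_of_le (by norm_num)] at hs
        have hs1 : |s| ≤ 1 := abs_le.2 ⟨hs.1.le, hs.2⟩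
        refine hup s 1 hs1 one_pos ?_
        rw [div_one]
        have h4 := hτη ξ ζ η s hη
        have h5 : ‖η‖ ≤ ‖η + (ε * s) • e‖ + ε := by
          calc ‖η‖ = ‖(η + (ε * s) • e) - (ε * s) • e‖ := by rw [add_sub_cancel_right]
            _ ≤ ‖η + (ε * s) • e‖ + ‖(ε * s) • e‖ := norm_sub_le _ _
            _ = ‖η + (ε * s) • e‖ + ε * |s| := by
              rw [norm_smul, he, mul_one, Real.norm_eq_abs, abs_mul, abs_of_pos hε]
            _ ≤ ‖η + (ε * s) • e‖ + ε := by nlinarith [abs_nonneg s]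
        rw [hTη]
        linarith
      rw [Real.one_rpow, show |(1 : ℝ) - (-1)| = 2 by norm_num] at h3
      calc 2⁻¹ * ‖∫ s in (-1 : ℝ)..1, (A (ξ + (ε * s) • e) - A (ζ + (ε * s) • e))‖
          ≤ 2⁻¹ * (L * (4 ^ a * 1 * 2 ^ b * W T) * ‖ξ - ζ‖ * 2) := by gcongr
        _ = L * 4 ^ a * 2 ^ b * W T * ‖ξ - ζ‖ := by ring
        _ ≤ L * 4 ^ a * 2 ^ b * W T * ‖ξ - ζ‖ * (1 + I) := by
          nlinarith
        _ = _ := by ring
    · -- near the origin
      have hT2 : T ≤ 2 * ε := by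
        rw [hT, hηm]
        exact max_le (by linarith) hcase.le
      set x : ℝ := inner ℝ η e / ε with hx
      have hx2 : |x| ≤ 2 := by
        rw [hx, abs_div, abs_of_pos hε, div_le_iff₀ hε]
        have h4 := abs_real_inner_le_norm η e
        rw [he, mul_one] at h4
        linarith
      obtain ⟨h5, h6⟩ := pow_neg_shift ha0 ha hx2
      have h3 : ‖∫ s in (-1 : ℝ)..1, (A (ξ + (ε * s) • e) - A (ζ + (ε * s) • e))‖ ≤
          ∫ s in (-1 : ℝ)..1, (L * 4 ^ a * 2 ^ b * W T * ‖ξ - ζ‖) * |x + s| ^ (-a) := by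
        refine intervalIntegral.norm_integral_le_of_norm_le (by norm_num) ?_ (h5.const_mul _)
        have h7 : ∀ᵐ s : ℝ, s ≠ -x := by
          rw [ae_iff]
          simp
        filter_upwards [h7] with s hs0 hs
        have hs1 : |s| ≤ 1 := abs_le.2 ⟨hs.1.le, hs.2⟩
        have hq : 0 < |x + s| := abs_pos.2 fun h => hs0 (by linarith)
        have h8 : ε * |x + s| ≤ max ‖ξ + (ε * s) • e‖ ‖ζ + (ε * s) • e‖ := by
          refine le_trans ?_ (hτη ξ ζ η s hη)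
          have h9 := abs_real_inner_le_norm (η + (ε * s) • e) e
          rw [he, mul_one, inner_add_left, real_inner_smul_left, real_inner_self_eq_norm_sq, he] at h9
          have h10 : (inner ℝ η e : ℝ) + ε * s * 1 ^ 2 = ε * (x + s) := by
            rw [hx]
            field_simp
          rw [h10, abs_mul, abs_of_pos hε] at h9
          exact h9
        have h9 := hup s |x + s| hs1 hq (by
          have : ε ≤ max ‖ξ + (ε * s) • e‖ ‖ζ + (ε * s) • e‖ / |x + s| := by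
            rw [le_div_iff₀ hq]
            exact h8
          linarith)
        refine h9.trans (le_of_eq ?_)
        ring
      rw [intervalIntegral.integral_const_mul] at h3
      calc 2⁻¹ * ‖∫ s in (-1 : ℝ)..1, (A (ξ + (ε * s) • e) - A (ζ + (ε * s) • e))‖
          ≤ 2⁻¹ * ((L * 4 ^ a * 2 ^ b * W T * ‖ξ - ζ‖) * I) := by
            gcongr
            exact h3.trans (mul_le_mul_of_nonneg_left h6 hI1)
        _ ≤ L * 4 ^ a * 2 ^ b * W T * ‖ξ - ζ‖ * (1 + I) := by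
          have h10 : 0 ≤ L * 4 ^ a * 2 ^ b * W T * ‖ξ - ζ‖ * I := mul_nonneg hI1 hI0
          nlinarith
        _ = _ := by ring

end Pool.Agent.CG
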