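import Pool.Agent.CG.F.Trunc
import Pool.Agent.CG.F.Avg

/-!
# CG-F-Reg: regularisation of structure functions
-/

set_option autoImplicit false

namespace Pool.Agent.CG

open MeasureTheory Set Filter Topology
open scoped ContDiff ENNReal

variable {m : ℕ}

/-- Uniform bounds of the clamped weight. -/
theorem uu_of_clamp {a b : ℝ} (ha : 0 ≤ a) (hb : 0 ≤ b) {W : ℝ → ℝ} (hW : Wt a b W) {c L K : ℝ}
    (hc : 0 < c) (hL : 0 ≤ L) (hK : 1 ≤ K) {B : Hv m → Hv m}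
    (hB : AA (fun t => c * W (max K⁻¹ (min t K))) L B) :
    ∃ lam Lam : ℝ, 0 < lam ∧ UU lam Lam B := by
  have hK0 : 0 < K := by linarith
  have hW1 := hW.pos 1 one_pos
  have hKK : K⁻¹ ≤ K := (inv_le_one_of_one_le₀ hK).trans hK
  have hr : ∀ t : ℝ, W 1 ≤ K ^ (a + b) * W (max K⁻¹ (min t K)) ∧
      W (max K⁻¹ (min t K)) ≤ K ^ (a + b) * W 1 := by
    intro t
    have h1 : K⁻¹ ≤ max K⁻¹ (min t K) := le_max_left _ _
    have h2 : max K⁻¹ (min t K) ≤ K := max_le hKK (min_le_right _ _)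
    have h3 : 0 < max K⁻¹ (min t K) := lt_max_of_lt_left (inv_pos.2 hK0)
    have h4 : 1 ≤ K * max K⁻¹ (min t K) := by
      calc (1 : ℝ) = K * K⁻¹ := (mul_inv_cancel₀ hK0.ne').symm
        _ ≤ _ := by gcongr
    exact ⟨wt_cmp ha hb hW one_pos h3 hK h4 (by rwa [mul_one]),
      wt_cmp ha hb hW h3 one_pos hK (by rwa [mul_one]) h4⟩
  refine ⟨c * ((K ^ (a + b))⁻¹ * W 1), L * (c * (K ^ (a + b) * W 1)), by positivity, ?_, ?_⟩
  · intro ξ ζ
    refine le_trans ?_ (hB.mono ξ ζ)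
    gcongr
    rw [inv_mul_le_iff₀ (by positivity)]
    exact (hr _).1
  · intro ξ ζ
    refine (hB.lip ξ ζ).trans ?_
    gcongr
    exact (hr _).2

/-- Regularisation: truncated mollifications are uniformly elliptic and converge. -/
theorem exists_reg {a b L : ℝ} (ha0 : 0 ≤ a) (ha : a < 1) (hb : 0 ≤ b) (hL : 1 ≤ L) :
    ∃ c : ℝ, 0 < c ∧ ∃ L' : ℝ, 1 ≤ L' ∧ ∀ (W : ℝ → ℝ) (A : Hv m → Hv m), Wt a b W → AA W L A →
      ∃ Ak : ℕ → Hv m → Hv m,
        (∀ k : ℕ, AA (fun t => c * W (max ((k : ℝ) + 1)⁻¹ (min t (k + 1)))) L' (Ak k)) ∧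
        (∀ k, ∃ lam Lam : ℝ, 0 < lam ∧ UU lam Lam (Ak k)) ∧
        ∀ M : ℝ, TendstoUniformlyOn Ak A atTop (Metric.closedBall 0 M) := by
  rcases Nat.eq_zero_or_pos m with hm | hm
  · subst hm
    refine ⟨1, one_pos, 1, le_rfl, fun W A _ _ => ⟨fun _ => A, fun k => ⟨fun ξ ζ => ?_, fun ξ ζ => ?_⟩,
      fun k => ⟨1, 1, one_pos, fun ξ ζ => ?_, fun ξ ζ => ?_⟩, fun M => ?_⟩⟩
    · rw [Subsingleton.elim ξ ζ]
      simp
    · rw [Subsingleton.elim ξ ζ]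
      simp
    · rw [Subsingleton.elim ξ ζ]
      simp
    · rw [Subsingleton.elim ξ ζ]
      simp
    · rw [Metric.tendstoUniformlyOn_iff]
      intro δ hδ
      refine Eventually.of_forall fun k ξ _ => ?_
      rw [dist_self]
      exact hδ
  obtain ⟨c₁, hc₁, L₁, hL₁, H₁⟩ := exists_trunc (m := m) ha0 ha hb hL
  obtain ⟨c₂, hc₂, L₂, hL₂, H₂⟩ := avg_AA (m := m) ha0 ha hb hL₁
  refine ⟨c₂ * c₁, by positivity, L₂, hL₂, fun W A hW hA => ?_⟩
  have hcont := AA.continuous ha hb (by linarith : (0 : ℝ) ≤ L) hW hA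
  set e : Hv m := EuclideanSpace.single ⟨0, hm⟩ 1 with he
  have he1 : ‖e‖ = 1 := by simp [he]
  have hK0 : ∀ k : ℕ, (0 : ℝ) < (k : ℝ) + 1 := fun k => by positivity
  choose T hT1 hT2 using fun k : ℕ => H₁ W A ((k : ℝ) + 1) (hK0 k) hW hA
  have hTc : ∀ k, Continuous (T k) := fun k =>
    AA.continuous ha hb (by linarith : (0 : ℝ) ≤ L₁) (wt_min ha0 hb hW hc₁ (hK0 k)) (hT1 k)
  have hAA : ∀ k : ℕ, AA (fun t => c₂ * c₁ * W (max ((k : ℝ) + 1)⁻¹ (min t (k + 1)))) L₂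
      (avg (T k) ((k : ℝ) + 1)⁻¹ e) := by
    intro k
    have h1 := H₂ _ _ (wt_min ha0 hb hW hc₁ (hK0 k)) (hT1 k) e ((k : ℝ) + 1)⁻¹ he1
      (inv_pos.2 (hK0 k))
    have h2 : (fun t => c₂ * c₁ * W (max ((k : ℝ) + 1)⁻¹ (min t (k + 1)))) =
        fun t => c₂ * (fun t => c₁ * W (min t ((k : ℝ) + 1))) (max ((k : ℝ) + 1)⁻¹ t) := by
      funext t
      have h3 : ((k : ℝ) + 1)⁻¹ ≤ (k : ℝ) + 1 := by
        have h4 : (1 : ℝ) ≤ (k : ℝ) + 1 := by
          have : (0 : ℝ) ≤ (k : ℝ) := by positivity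
          linarith
        exact (inv_le_one_of_one_le₀ h4).trans h4
      simp only
      rw [min_max_distrib_right, min_eq_left h3]
      ring
    rw [h2]
    exact h1
  refine ⟨fun k => avg (T k) ((k : ℝ) + 1)⁻¹ e, hAA, fun k => ?_, fun M => ?_⟩
  · refine uu_of_clamp ha0 hb hW (by positivity) (by linarith) ?_ (hAA k)
    have : (0 : ℝ) ≤ (k : ℝ) := by positivity
    linarith
  · rw [Metric.tendstoUniformlyOn_iff]
    intro δ hδ
    have hcpt : IsCompact (Metric.closedBall (0 : Hv m) (M + 1)) := isCompact_closedBall _ _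
    have huc := hcpt.uniformContinuousOn_of_continuous hcont.continuousOn
    rw [Metric.uniformContinuousOn_iff] at huc
    obtain ⟨ρ, hρ, huc⟩ := huc (δ / 2) (by positivity)
    have hlim : Tendsto (fun k : ℕ => ((k : ℝ) + 1)⁻¹) atTop (𝓝 0) := by
      simpa [one_div] using tendsto_one_div_add_atTop_nhds_zero_nat (𝕜 := ℝ)
    have hev1 : ∀ᶠ k : ℕ in atTop, ((k : ℝ) + 1)⁻¹ < ρ := hlim.eventually (gt_mem_nhds hρ)
    have hev2 : ∀ᶠ k : ℕ in atTop, M ≤ (k : ℝ) := tendsto_natCast_atTop_atTop.eventually_ge_atTop M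
    filter_upwards [hev1, hev2] with k hk1 hk2 ξ hξ
    rw [mem_closedBall_zero_iff] at hξ
    have hε1 : ((k : ℝ) + 1)⁻¹ ≤ 1 := by
      refine inv_le_one_of_one_le₀ ?_
      have : (0 : ℝ) ≤ (k : ℝ) := by positivity
      linarith
    have hεp : 0 < ((k : ℝ) + 1)⁻¹ := inv_pos.2 (hK0 k)
    set ε := ((k : ℝ) + 1)⁻¹ with hε
    have h1 : A ξ = (2 : ℝ)⁻¹ • ∫ _s in (-1 : ℝ)..1, A ξ := by
      rw [intervalIntegral.integral_const, smul_smul]
      norm_num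
    have h2 : A ξ - avg (T k) ε e ξ = (2 : ℝ)⁻¹ • ∫ s in (-1 : ℝ)..1, (A ξ - T k (ξ + (ε * s) • e)) := by
      rw [intervalIntegral.integral_sub (by simp) ((avg_cont (hTc k) ε e ξ).intervalIntegrable _ _),
        smul_sub, ← h1]
      rfl
    rw [dist_eq_norm, h2, norm_smul, Real.norm_of_nonneg (by norm_num : (0 : ℝ) ≤ 2⁻¹)]
    have h3 : ‖∫ s in (-1 : ℝ)..1, (A ξ - T k (ξ + (ε * s) • e))‖ ≤ δ / 2 * |1 - (-1)| := by
      refine intervalIntegral.norm_integral_le_of_norm_le_const fun s hs => ?_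
      rw [uIoc_of_le (by norm_num)] at hs
      have hs1 : |s| ≤ 1 := abs_le.2 ⟨hs.1.le, hs.2⟩
      have h4 : ‖(ε * s) • e‖ ≤ ε := by
        rw [norm_smul, he1, mul_one, Real.norm_eq_abs, abs_mul, abs_of_pos hεp]
        nlinarith [abs_nonneg s]
      have h5 : ‖ξ + (ε * s) • e‖ ≤ M + 1 := (norm_add_le _ _).trans (by linarith)
      rw [hT2 k _ (h5.trans (by linarith)), ← dist_eq_norm]
      refine (huc ξ ?_ _ ?_ ?_).le
      · rw [mem_closedBall_zero_iff]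
        linarith
      · rw [mem_closedBall_zero_iff]
        exact h5
      · rw [dist_eq_norm, sub_add_cancel_left, norm_neg]
        exact h4.trans_lt hk1
    rw [show |(1 : ℝ) - (-1)| = 2 by norm_num] at h3
    calc 2⁻¹ * ‖∫ s in (-1 : ℝ)..1, (A ξ - T k (ξ + (ε * s) • e))‖ ≤ 2⁻¹ * (δ / 2 * 2) := by gcongr
      _ < δ := by linarith

end Pool.Agent.CG
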