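import Pool.Agent.CG.F.Def

/-!
# CG-F-Trunc: truncation at slope `k`
PLAN.  `P ξ = ξ` if `‖ξ‖ ≤ k`, else `(k/‖ξ‖) ξ` (projection on the closed ball; `‖P ξ - P ζ‖ ≤ ‖ξ - ζ‖` and
`⟪(ξ - Pξ) - (ζ - Pζ), Pξ - Pζ⟫ ≥ 0`; both from the variational inequality `⟪ξ - Pξ, y - Pξ⟫ ≤ 0` for `‖y‖ ≤ k`, which is
Cauchy-Schwarz).  `A' ξ = A (P ξ) + κ (ξ - P ξ)`, `κ = L² W(k)` (a constant).  Put `s = ‖Pξ - Pζ‖`, `t = ‖(ξ-Pξ) - (ζ-Pζ)‖`,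
`M' = max ‖Pξ‖ ‖Pζ‖ = min (max ‖ξ‖ ‖ζ‖) k`.  If one of the points is outside the ball, `M' = k`, and
`⟪A'ξ - A'ζ, ξ - ζ⟫ ≥ W(k) s² - L W(k) s t + κ t² ≥ (W(k)/2)(s² + L² t²)` (`s² - L s t + L² t² ≥ (s² + L² t²)/2`) `≥ (W(k)/4) ‖ξ - ζ‖²`
(`‖ξ-ζ‖² ≤ 2 s² + 2 t²`, `L ≥ 1`), and `‖A'ξ - A'ζ‖ ≤ L W(k) s + κ t ≤ 2 L² W(k) ‖ξ - ζ‖` (`s, t ≤ ‖ξ - ζ‖`).  Inside, `A' = A`.
`c = 1/4`, `L' = 8 L²`.
-/

set_option autoImplicit false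

namespace Pool.Agent.CG

open MeasureTheory Set Filter Topology
open scoped ContDiff ENNReal

variable {m : ℕ}

private noncomputable def tP (k : ℝ) (ξ : Hv m) : Hv m := if ‖ξ‖ ≤ k then ξ else (k / ‖ξ‖) • ξ

private theorem tP_norm {k : ℝ} (hk : 0 < k) (ξ : Hv m) : ‖tP k ξ‖ = min ‖ξ‖ k := by
  unfold tP
  split_ifs with h
  · rw [min_eq_left h]
  · push Not at h
    have h1 : 0 < ‖ξ‖ := by linarith
    rw [min_eq_right h.le, norm_smul, Real.norm_of_nonneg (by positivity)]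
    field_simp

private theorem tP_var {k : ℝ} (hk : 0 < k) (ξ y : Hv m) (hy : ‖y‖ ≤ k) :
    inner ℝ (ξ - tP k ξ) (y - tP k ξ) ≤ 0 := by
  unfold tP
  split_ifs with h
  · rw [sub_self, inner_zero_left]
  · push Not at h
    have h1 : 0 < ‖ξ‖ := by linarith
    have h2 : ξ - (k / ‖ξ‖) • ξ = (1 - k / ‖ξ‖) • ξ := by rw [sub_smul, one_smul]
    rw [h2, inner_smul_left, inner_sub_right, inner_smul_right, real_inner_self_eq_norm_sq]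
    have h3 : 0 ≤ 1 - k / ‖ξ‖ := by
      rw [sub_nonneg, div_le_one h1]
      exact h.le
    have h4 : inner ℝ ξ y ≤ ‖ξ‖ * ‖y‖ := real_inner_le_norm ξ y
    have h5 : k / ‖ξ‖ * ‖ξ‖ ^ 2 = k * ‖ξ‖ := by field_simp
    rw [h5]
    have h6 : inner ℝ ξ y - k * ‖ξ‖ ≤ 0 := by
      have : ‖ξ‖ * ‖y‖ ≤ ‖ξ‖ * k := by gcongr
      linarith
    exact mul_nonpos_of_nonneg_of_nonpos h3 h6

private theorem tP_inner {k : ℝ} (hk : 0 < k) (ξ ζ : Hv m) :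
    0 ≤ inner ℝ ((ξ - tP k ξ) - (ζ - tP k ζ)) (tP k ξ - tP k ζ) := by
  have h1 := tP_var hk ξ (tP k ζ) (by rw [tP_norm hk]; exact min_le_right _ _)
  have h2 := tP_var hk ζ (tP k ξ) (by rw [tP_norm hk]; exact min_le_right _ _)
  have h3 : inner ℝ (ξ - tP k ξ) (tP k ξ - tP k ζ) = - inner ℝ (ξ - tP k ξ) (tP k ζ - tP k ξ) := by
    rw [← inner_neg_right, neg_sub]
  rw [inner_sub_left, h3]
  linarith

/-- Truncation at slope `k`: same values on the ball of radius `k`. -/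
theorem exists_trunc {a b L : ℝ} (ha0 : 0 ≤ a) (ha : a < 1) (hb : 0 ≤ b) (hL : 1 ≤ L) :
    ∃ c : ℝ, 0 < c ∧ ∃ L' : ℝ, 1 ≤ L' ∧ ∀ (W : ℝ → ℝ) (A : Hv m → Hv m) (k : ℝ), 0 < k → Wt a b W →
      AA W L A → ∃ A' : Hv m → Hv m, AA (fun t => c * W (min t k)) L' A' ∧
        ∀ ξ, ‖ξ‖ ≤ k → A' ξ = A ξ := by
  have hL2 : 1 ≤ L ^ 2 := one_le_pow₀ hL
  refine ⟨1 / 4, by norm_num, 8 * L ^ 2, by linarith, ?_⟩
  intro W A k hk hW hA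
  have hWk := hW.pos k hk
  have hWM : ∀ ξ ζ : Hv m, 0 ≤ W (max ‖ξ‖ ‖ζ‖) * ‖ξ - ζ‖ := by
    intro ξ ζ
    rcases (le_max_of_le_left (norm_nonneg ξ) : 0 ≤ max ‖ξ‖ ‖ζ‖).eq_or_lt with h | h
    · have h1 : ‖ξ‖ ≤ 0 := h ▸ le_max_left _ _
      have h2 : ‖ζ‖ ≤ 0 := h ▸ le_max_right _ _
      rw [norm_le_zero_iff.1 h1, norm_le_zero_iff.1 h2, sub_self, norm_zero, mul_zero]
    · exact mul_nonneg (hW.pos _ h).le (norm_nonneg _)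
  have hin : ∀ ξ : Hv m, ‖ξ‖ ≤ k → tP k ξ = ξ := fun ξ h => if_pos h
  refine ⟨fun ξ => A (tP k ξ) + (L ^ 2 * W k) • (ξ - tP k ξ), ⟨?_, ?_⟩, ?_⟩
  · intro ξ ζ
    show 1 / 4 * W (min (max ‖ξ‖ ‖ζ‖) k) * ‖ξ - ζ‖ ^ 2 ≤
      inner ℝ (A (tP k ξ) + (L ^ 2 * W k) • (ξ - tP k ξ) -
        (A (tP k ζ) + (L ^ 2 * W k) • (ζ - tP k ζ))) (ξ - ζ)
    by_cases h : max ‖ξ‖ ‖ζ‖ ≤ k
    · rw [min_eq_left h, hin ξ ((le_max_left _ _).trans h), hin ζ ((le_max_right _ _).trans h),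
        sub_self, sub_self, smul_zero, add_zero, add_zero]
      have h1 := hA.mono ξ ζ
      have h2 := mul_nonneg (hWM ξ ζ) (norm_nonneg (ξ - ζ))
      have h3 : W (max ‖ξ‖ ‖ζ‖) * ‖ξ - ζ‖ * ‖ξ - ζ‖ = W (max ‖ξ‖ ‖ζ‖) * ‖ξ - ζ‖ ^ 2 := by ring
      have h4 : 1 / 4 * W (max ‖ξ‖ ‖ζ‖) * ‖ξ - ζ‖ ^ 2 =
          1 / 4 * (W (max ‖ξ‖ ‖ζ‖) * ‖ξ - ζ‖ * ‖ξ - ζ‖) := by ring
      rw [h4]
      linarith
    · push Not at h
      rw [min_eq_right h.le]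
      have hmax : max ‖tP k ξ‖ ‖tP k ζ‖ = k := by
        rw [tP_norm hk, tP_norm hk]
        rcases le_total ‖ξ‖ ‖ζ‖ with h1 | h1
        · rw [max_eq_right h1] at h
          rw [min_eq_right h.le]
          exact max_eq_right (min_le_right _ _)
        · rw [max_eq_left h1] at h
          rw [min_eq_right h.le]
          exact max_eq_left (min_le_right _ _)
      set u : Hv m := tP k ξ - tP k ζ with hu
      set v : Hv m := (ξ - tP k ξ) - (ζ - tP k ζ) with hv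
      have e1 : ξ - ζ = u + v := by rw [hu, hv]; abel
      have e2 : A (tP k ξ) + (L ^ 2 * W k) • (ξ - tP k ξ) -
          (A (tP k ζ) + (L ^ 2 * W k) • (ζ - tP k ζ)) =
          (A (tP k ξ) - A (tP k ζ)) + (L ^ 2 * W k) • v := by
        rw [hv, smul_sub (L ^ 2 * W k) (ξ - tP k ξ) (ζ - tP k ζ)]
        abel
      have h1 := hA.mono (tP k ξ) (tP k ζ)
      have h2 := hA.lip (tP k ξ) (tP k ζ)
      rw [hmax, ← hu] at h1 h2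
      have h3 : 0 ≤ inner ℝ v u := tP_inner hk ξ ζ
      have h4 : -(‖A (tP k ξ) - A (tP k ζ)‖ * ‖v‖) ≤ inner ℝ (A (tP k ξ) - A (tP k ζ)) v := by
        have := abs_real_inner_le_norm (A (tP k ξ) - A (tP k ζ)) v
        exact (abs_le.1 this).1
      rw [e2, e1, inner_add_left, inner_add_right, inner_smul_left, inner_add_right,
        real_inner_self_eq_norm_sq]
      have h5 : ‖u + v‖ ^ 2 ≤ 2 * ‖u‖ ^ 2 + 2 * ‖v‖ ^ 2 := by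
        have h6 := norm_add_le u v
        have h7 : ‖u + v‖ ^ 2 ≤ (‖u‖ + ‖v‖) ^ 2 := by gcongr
        nlinarith [sq_nonneg (‖u‖ - ‖v‖)]
      have h8 : ‖A (tP k ξ) - A (tP k ζ)‖ * ‖v‖ ≤ L * W k * ‖u‖ * ‖v‖ := by gcongr
      have h10 : W k * (‖u‖ ^ 2 - L * ‖u‖ * ‖v‖ + L ^ 2 * ‖v‖ ^ 2) ≥
          W k * ((‖u‖ ^ 2 + ‖v‖ ^ 2) / 2) := by
        have h11 : ‖v‖ ^ 2 ≤ L ^ 2 * ‖v‖ ^ 2 := le_mul_of_one_le_left (by positivity) hL2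
        have h12 : (‖u‖ ^ 2 + ‖v‖ ^ 2) / 2 ≤ ‖u‖ ^ 2 - L * ‖u‖ * ‖v‖ + L ^ 2 * ‖v‖ ^ 2 := by
          nlinarith [sq_nonneg (‖u‖ - L * ‖v‖)]
        exact mul_le_mul_of_nonneg_left h12 hWk.le
      have h13 : 1 / 4 * W k * ‖u + v‖ ^ 2 ≤ W k * ((‖u‖ ^ 2 + ‖v‖ ^ 2) / 2) := by
        have : W k * ‖u + v‖ ^ 2 ≤ W k * (2 * ‖u‖ ^ 2 + 2 * ‖v‖ ^ 2) := by gcongr
        nlinarith
      have h14 : 0 ≤ L ^ 2 * W k * inner ℝ v u := by positivity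
      have h15 : (starRingEnd ℝ) (L ^ 2 * W k) = L ^ 2 * W k := rfl
      rw [h15]
      nlinarith
  · intro ξ ζ
    show ‖A (tP k ξ) + (L ^ 2 * W k) • (ξ - tP k ξ) -
        (A (tP k ζ) + (L ^ 2 * W k) • (ζ - tP k ζ))‖ ≤
      8 * L ^ 2 * (1 / 4 * W (min (max ‖ξ‖ ‖ζ‖) k)) * ‖ξ - ζ‖
    by_cases h : max ‖ξ‖ ‖ζ‖ ≤ k
    · rw [min_eq_left h, hin ξ ((le_max_left _ _).trans h), hin ζ ((le_max_right _ _).trans h),
        sub_self, sub_self, smul_zero, add_zero, add_zero]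
      have h1 := hA.lip ξ ζ
      have h2 := hWM ξ ζ
      have h3 : L * (W (max ‖ξ‖ ‖ζ‖) * ‖ξ - ζ‖) ≤ 2 * L ^ 2 * (W (max ‖ξ‖ ‖ζ‖) * ‖ξ - ζ‖) := by
        have : L ≤ 2 * L ^ 2 := by nlinarith
        gcongr
      calc ‖A ξ - A ζ‖ ≤ L * W (max ‖ξ‖ ‖ζ‖) * ‖ξ - ζ‖ := h1
        _ = L * (W (max ‖ξ‖ ‖ζ‖) * ‖ξ - ζ‖) := by ring
        _ ≤ 2 * L ^ 2 * (W (max ‖ξ‖ ‖ζ‖) * ‖ξ - ζ‖) := h3
        _ = 8 * L ^ 2 * (1 / 4 * W (max ‖ξ‖ ‖ζ‖)) * ‖ξ - ζ‖ := by ring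
    · push Not at h
      rw [min_eq_right h.le]
      have hmax : max ‖tP k ξ‖ ‖tP k ζ‖ = k := by
        rw [tP_norm hk, tP_norm hk]
        rcases le_total ‖ξ‖ ‖ζ‖ with h1 | h1
        · rw [max_eq_right h1] at h
          rw [min_eq_right h.le]
          exact max_eq_right (min_le_right _ _)
        · rw [max_eq_left h1] at h
          rw [min_eq_right h.le]
          exact max_eq_left (min_le_right _ _)
      set u : Hv m := tP k ξ - tP k ζ with hu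
      set v : Hv m := (ξ - tP k ξ) - (ζ - tP k ζ) with hv
      have e1 : ξ - ζ = u + v := by rw [hu, hv]; abel
      have e2 : A (tP k ξ) + (L ^ 2 * W k) • (ξ - tP k ξ) -
          (A (tP k ζ) + (L ^ 2 * W k) • (ζ - tP k ζ)) =
          (A (tP k ξ) - A (tP k ζ)) + (L ^ 2 * W k) • v := by
        rw [hv, smul_sub (L ^ 2 * W k) (ξ - tP k ξ) (ζ - tP k ζ)]
        abel
      have h2 := hA.lip (tP k ξ) (tP k ζ)
      rw [hmax, ← hu] at h2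
      have h3 : 0 ≤ inner ℝ v u := tP_inner hk ξ ζ
      have h4 : ‖u + v‖ ^ 2 = ‖u‖ ^ 2 + 2 * inner ℝ v u + ‖v‖ ^ 2 := by
        rw [norm_add_sq_real, real_inner_comm]
      have h5 : ‖u‖ ≤ ‖u + v‖ := by
        refine le_of_sq_le_sq ?_ (norm_nonneg _)
        nlinarith [sq_nonneg ‖v‖]
      have h6 : ‖v‖ ≤ ‖u + v‖ := by
        refine le_of_sq_le_sq ?_ (norm_nonneg _)
        nlinarith [sq_nonneg ‖u‖]
      rw [e2, e1]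
      calc ‖(A (tP k ξ) - A (tP k ζ)) + (L ^ 2 * W k) • v‖
          ≤ ‖A (tP k ξ) - A (tP k ζ)‖ + ‖(L ^ 2 * W k) • v‖ := norm_add_le _ _
        _ ≤ L * W k * ‖u‖ + L ^ 2 * W k * ‖v‖ := by
            rw [norm_smul, Real.norm_of_nonneg (by positivity)]
            gcongr
        _ ≤ L ^ 2 * W k * ‖u + v‖ + L ^ 2 * W k * ‖u + v‖ := by
            have h7 : L ≤ L ^ 2 := by nlinarith
            gcongr
        _ = 8 * L ^ 2 * (1 / 4 * W k) * ‖u + v‖ := by ring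
  · intro ξ h
    show A (tP k ξ) + (L ^ 2 * W k) • (ξ - tP k ξ) = A ξ
    rw [hin ξ h, sub_self, smul_zero, add_zero]

end Pool.Agent.CG
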