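import Pool.Agent.CG.UUDef

/-!
# CG-F-Def: the structure classes (definitions)
-/

set_option autoImplicit false

namespace Pool.Agent.CG

open MeasureTheory Set Filter Topology
open scoped ContDiff ENNReal

variable {m : ℕ}

/-- Weights `W : (0,∞) → (0,∞)` with `(t/s)^{-a} W(s) ≤ W(t) ≤ (t/s)^b W(s)` for `s ≤ t`. -/
structure Wt (a b : ℝ) (W : ℝ → ℝ) : Prop where
  pos : ∀ t, 0 < t → 0 < W t
  lo : ∀ s t, 0 < s → s ≤ t → (t / s) ^ (-a) * W s ≤ W t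
  hi : ∀ s t, 0 < s → s ≤ t → W t ≤ (t / s) ^ b * W s

/-- Structure functions of weight `W`. -/
structure AA (W : ℝ → ℝ) (L : ℝ) (A : Hv m → Hv m) : Prop where
  mono : ∀ ξ ζ, W (max ‖ξ‖ ‖ζ‖) * ‖ξ - ζ‖ ^ 2 ≤ inner ℝ (A ξ - A ζ) (ξ - ζ)
  lip : ∀ ξ ζ, ‖A ξ - A ζ‖ ≤ L * W (max ‖ξ‖ ‖ζ‖) * ‖ξ - ζ‖

/-- Normalised structure functions. -/
def Nrm (a b L : ℝ) (A : Hv m → Hv m) : Prop := ∃ W : ℝ → ℝ, Wt a b W ∧ W 1 = 1 ∧ AA W L A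

/-- The energy density `t^2 W(t)`. -/
def gg (W : ℝ → ℝ) (t : ℝ) : ℝ := t ^ 2 * W t

end Pool.Agent.CG
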